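import Pool.Agent.P8H67.TU.Stm

/-!
# Project TU (helper67), package FIELD: an equivariant field of means on the fibres

Adaptation of `Pool.Agent.P8H70.TD.Field` (helper70) to fibrewise affine actions on `V × U`.
-/

set_option autoImplicit false

open Set

namespace Pool.Agent.P8H52.TU

open Pool.Agent.P8H67.TU
open Pool.Agent.P8H67.TD (Bd PMean)

theorem field : S_FIELD := by
  intro V U Γ _ _ _ _ _ θ c hS hm
  classical
  have mulh : ∀ a b p, fac θ c (a * b) p = fac θ c a (fac θ c b p) := by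
    intro a b p
    refine Prod.ext ?_ ?_
    · show θ (a * b) p.1 + c (a * b) p.2 = θ a (θ b p.1 + c b p.2) + c a (b • p.2)
      rw [hS.mul, map_mul, map_add, add_assoc]
      rfl
    · exact mul_smul a b p.2
  let r : Setoid U :=
    { r := fun u v => ∃ γ : Γ, γ • u = v
      iseqv :=
        { refl := fun u => ⟨1, one_smul Γ u⟩
          symm := by
            rintro u v ⟨γ, rfl⟩
            exact ⟨γ⁻¹, inv_smul_smul γ u⟩
          trans := by
            rintro u v w ⟨γ, rfl⟩ ⟨δ, rfl⟩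
            exact ⟨δ * γ, mul_smul δ γ u⟩ } }
  let rp : U → U := fun u => (Quotient.mk r u).out
  have hrp : ∀ u, ∃ γ : Γ, γ • (rp u) = u := fun u => Quotient.mk_out (s := r) u
  have hrp2 : ∀ (γ : Γ) u, rp (γ • u) = rp u := by
    intro γ u
    show (Quotient.mk r (γ • u)).out = (Quotient.mk r u).out
    congr 1
    exact Quotient.sound (s := r) ⟨γ⁻¹, inv_smul_smul γ u⟩
  choose g hg using hrp
  choose m hm' using hm
  let N : ∀ v : U, Γ → (V × U → ℝ) → ℝ := fun v a f =>
    m v (fun δ : MulAction.stabilizer Γ v => f (fac θ c (a * (δ : Γ)) (0, v)))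
  have bd : ∀ (v : U) (a : Γ) (f : V × U → ℝ), Bd f →
      Bd (fun δ : MulAction.stabilizer Γ v => f (fac θ c (a * (δ : Γ)) (0, v))) := by
    rintro v a f ⟨C, hC⟩
    exact ⟨C, fun δ => hC _⟩
  refine ⟨fun u f => N (rp u) (g u) f, ?_⟩
  intro u
  obtain ⟨h1, h2, h3, h4, h5⟩ := hm' (rp u)
  refine ⟨?_, ?_, h3, ?_, ?_⟩
  · intro f k hf hk
    exact h1 _ _ (bd _ _ _ hf) (bd _ _ _ hk)
  · intro s f hf
    exact h2 s _ (bd _ _ _ hf)
  · intro s f hf hc
    refine h4 s _ (bd _ _ _ hf) fun δ => ?_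
    have e : (fac θ c (g u * (δ : Γ)) (0, rp u)).2 = u := by
      show (g u * (δ : Γ)) • rp u = u
      rw [mul_smul]
      have : (δ : Γ) • (rp u) = rp u := δ.2
      rw [this, hg]
    have h6 := hc (fac θ c (g u * (δ : Γ)) (0, rp u)).1
    have e2 : ((fac θ c (g u * (δ : Γ)) (0, rp u)).1, u) = fac θ c (g u * (δ : Γ)) (0, rp u) :=
      Prod.ext rfl e.symm
    rw [e2] at h6
    exact h6
  · intro γ f hf
    show N (rp (γ • u)) (g (γ • u)) f = N (rp u) (g u) (fun p => f (fac θ c γ p))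
    have hgu := hg (γ • u)
    rw [hrp2] at hgu ⊢
    have hε : (g (γ • u))⁻¹ * (γ * g u) ∈ MulAction.stabilizer Γ (rp u) := by
      rw [MulAction.mem_stabilizer_iff, mul_smul, mul_smul, hg u, inv_smul_eq_iff]
      exact hgu.symm
    have h := h5 (fun δ : MulAction.stabilizer Γ (rp u) => f (fac θ c (g (γ • u) * (δ : Γ)) (0, rp u)))
      (bd _ _ _ hf) ⟨_, hε⟩
    show m (rp u) (fun δ : MulAction.stabilizer Γ (rp u) => f (fac θ c (g (γ • u) * (δ : Γ)) (0, rp u))) =
      m (rp u) (fun δ : MulAction.stabilizer Γ (rp u) => f (fac θ c γ (fac θ c (g u * (δ : Γ)) (0, rp u))))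
    rw [← h]
    congr 1
    funext δ
    show f (fac θ c (g (γ • u) * ((g (γ • u))⁻¹ * (γ * g u) * (δ : Γ))) (0, rp u)) = _
    rw [← mulh]
    congr 2
    group

end Pool.Agent.P8H52.TU
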