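import Pool.Agent.P8H67.TU.Stm

/-!
# Project TU (helper67), package IM: iterated means on tuples

Adaptation of `Pool.Agent.P8H70.TD.Im` (helper70) to fibrewise affine actions on `V × U`.
-/

set_option autoImplicit false

open Set

namespace Pool.Agent.P8H52.TU

open Pool.Agent.P8H67.TU
open Pool.Agent.P8H67.TD (Bd PMean)

/-- the iterated mean -/
def II {E Q : Type} (M : Q → (E → ℝ) → ℝ) : ∀ n, (Fin n → Q) → ((Fin n → E) → ℝ) → ℝ
  | 0, _, f => f (fun i => i.elim0)
  | n + 1, u, f => M (u 0) (fun p => II M n (fun i => u i.succ) (fun x => f (Fin.cons p x)))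

theorem im : S_IM := by
  rintro V U Γ _ _ _ _ _ θ c ⟨M, hM⟩
  refine ⟨II M, ?_⟩
  have base : ∀ n (u : Fin n → U),
    (∀ f g : (Fin n → V × U) → ℝ, Bd f → Bd g →
      II M n u (fun x => f x + g x) = II M n u f + II M n u g) ∧
    (∀ (r : ℝ) (f : (Fin n → V × U) → ℝ), Bd f → II M n u (fun x => r * f x) = r * II M n u f) ∧
    II M n u (fun _ => 1) = 1 ∧
    (∀ (r : ℝ) (f : (Fin n → V × U) → ℝ), Bd f → (∀ x, (∀ i, (x i).2 = u i) → f x ≤ r) →
      II M n u f ≤ r) ∧
    ∀ (γ : Γ) (f : (Fin n → V × U) → ℝ), Bd f →
      II M n (fun i => γ • u i) f = II M n u (fun x => f (fun i => fac θ c γ (x i))) := by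
    intro n
    induction n with
    | zero =>
      intro u
      refine ⟨fun f g _ _ => rfl, fun c f _ => rfl, rfl, fun c f _ h => h _ (fun i => i.elim0),
        fun γ f _ => ?_⟩
      show f _ = f _
      congr 1
      funext i
      exact i.elim0
    | succ n ih =>
      intro u
      have bdI : ∀ (u' : Fin n → U), ∀ f : (Fin (n + 1) → V × U) → ℝ, Bd f →
          Bd (fun p : V × U => II M n u' (fun x => f (Fin.cons p x))) := by
        rintro u' f ⟨C, hC⟩
        refine ⟨C, fun p => ?_⟩
        obtain ⟨_, h2, _, h4, _⟩ := ih u'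
        have hb : Bd (fun x : Fin n → V × U => f (Fin.cons p x)) := ⟨C, fun x => hC _⟩
        have hb' : Bd (fun x : Fin n → V × U => -1 * f (Fin.cons p x)) :=
          ⟨C, fun x => by
            show |-1 * f (Fin.cons p x)| ≤ C
            rw [neg_one_mul, abs_neg]
            exact hC _⟩
        rw [abs_le]
        constructor
        · have := h4 C _ hb' fun x _ => by
            have := (abs_le.1 (hC (Fin.cons p x))).1
            linarith
          rw [h2 (-1) _ hb] at this
          linarith
        · exact h4 C _ hb fun x _ => (abs_le.1 (hC (Fin.cons p x))).2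
      have bdx : ∀ f : (Fin (n + 1) → V × U) → ℝ, Bd f → ∀ p,
          Bd (fun x : Fin n → V × U => f (Fin.cons p x)) := by
        rintro f ⟨C, hC⟩ p
        exact ⟨C, fun x => hC _⟩
      obtain ⟨k1, k2, k3, k4, k5⟩ := ih (fun i => u i.succ)
      obtain ⟨m1, m2, m3, m4, m5⟩ := hM (u 0)
      refine ⟨?_, ?_, ?_, ?_, ?_⟩
      · intro f g hf hg
        show M (u 0) (fun p => II M n (fun i => u i.succ)
          (fun x => f (Fin.cons p x) + g (Fin.cons p x))) = _
        rw [funext fun p => k1 _ _ (bdx f hf p) (bdx g hg p)]
        exact m1 _ _ (bdI _ f hf) (bdI _ g hg)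
      · intro c f hf
        show M (u 0) (fun p => II M n (fun i => u i.succ) (fun x => c * f (Fin.cons p x))) = _
        rw [funext fun p => k2 c _ (bdx f hf p)]
        exact m2 c _ (bdI _ f hf)
      · show M (u 0) (fun p => II M n (fun i => u i.succ) (fun x => 1)) = 1
        rw [k3]
        exact m3
      · intro c f hf hc
        refine m4 c _ (bdI _ f hf) fun v => ?_
        refine k4 c _ (bdx f hf _) fun x hx => hc _ fun i => ?_
        refine Fin.cases ?_ (fun i => ?_) i
        · rfl
        · exact hx i
      · intro γ f hf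
        show M (γ • u 0) (fun p => II M n (fun i => γ • u i.succ)
          (fun x => f (Fin.cons p x))) = M (u 0) (fun p => II M n (fun i => u i.succ)
          (fun x => f (fun i => fac θ c γ ((Fin.cons p x : Fin (n + 1) → V × U) i))))
        rw [m5 γ _ (bdI _ f hf)]
        congr 1
        funext p
        show II M n (fun i => γ • u i.succ) (fun x => f (Fin.cons (fac θ c γ p) x)) = _
        rw [k5 γ _ (bdx f hf (fac θ c γ p))]
        congr 1
        funext x
        congr 1
        funext i
        refine Fin.cases ?_ (fun i => ?_) i <;> rfl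
  refine ⟨base, ?_⟩
  intro l
  induction l with
  | zero =>
    intro u i f hf
    have hi : i = 0 := Fin.ext (by omega)
    subst hi
    obtain ⟨m1, m2, m3, m4, m5⟩ := hM (u 0)
    show M (u 0) (fun p => f _) = f _
    have e : ∀ (p : V × U), (fun a : Fin 0 => (Fin.cons p (fun i : Fin 0 => i.elim0) :
        Fin 1 → V × U) ((0 : Fin 1).succAbove a)) = (fun i : Fin 0 => i.elim0) := by
      intro p
      funext a
      exact a.elim0
    rw [funext fun p => congrArg f (e p)]
    have := m2 (f (fun i : Fin 0 => i.elim0)) (fun _ => 1) ⟨1, fun _ => by simp⟩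
    rw [m3, mul_one] at this
    simpa using this
  | succ l ih =>
    intro u i f hf
    refine Fin.cases ?_ (fun i => ?_) i
    · obtain ⟨m1, m2, m3, m4, m5⟩ := hM (u 0)
      show M (u 0) (fun p => II M (l + 1) (fun i => u i.succ) (fun x => f (fun a =>
        (Fin.cons p x : Fin (l + 2) → V × U) ((0 : Fin (l + 2)).succAbove a)))) = _
      have e : ∀ (p : V × U) (x : Fin (l + 1) → V × U), (fun a : Fin (l + 1) =>
          (Fin.cons p x : Fin (l + 2) → V × U) ((0 : Fin (l + 2)).succAbove a)) = x := by
        intro p x
        funext a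
        rw [Fin.zero_succAbove]
        rfl
      have e2 : (fun a : Fin (l + 1) => u ((0 : Fin (l + 2)).succAbove a)) =
          fun i => u i.succ := by
        funext a
        rw [Fin.zero_succAbove]
      rw [e2]
      simp only [e]
      have := m2 (II M (l + 1) (fun i => u i.succ) f) (fun _ => 1) ⟨1, fun _ => by simp⟩
      rw [m3, mul_one] at this
      simpa using this
    · show M (u 0) (fun p => II M (l + 1) (fun i => u i.succ) (fun x => f (fun a =>
        (Fin.cons p x : Fin (l + 2) → V × U) (i.succ.succAbove a)))) =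
        M (u (i.succ.succAbove 0)) (fun p => II M l (fun b => u (i.succ.succAbove b.succ))
          (fun y => f (Fin.cons p y)))
      have e : ∀ (p : V × U) (x : Fin (l + 1) → V × U), (fun a : Fin (l + 1) =>
          (Fin.cons p x : Fin (l + 2) → V × U) (i.succ.succAbove a)) =
          Fin.cons p (fun b => x (i.succAbove b)) := by
        intro p x
        funext a
        refine Fin.cases ?_ (fun a => ?_) a
        · rw [Fin.succ_succAbove_zero]
          rfl
        · rw [Fin.succ_succAbove_succ]
          rfl
      simp only [e]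
      rw [Fin.succ_succAbove_zero]
      congr 1
      funext p
      have hb : Bd (fun y : Fin l → V × U => f (Fin.cons p y)) := by
        obtain ⟨C, hC⟩ := hf
        exact ⟨C, fun y => hC _⟩
      rw [ih (fun i => u i.succ) i _ hb]
      congr 1
      funext b
      rw [Fin.succ_succAbove_succ]

end Pool.Agent.P8H52.TU
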